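import Pool.Agent.helper83.FI.SpecR
import Pool.Agent.helper32.GR.GLP

set_option autoImplicit false

namespace Pool.Agent.FI

open Pool.Agent.helper58.DC Pool.Agent.DI Pool.Agent.GR Pool.Agent.OB

theorem CJIx_conj {V : Type} [AddCommGroup V] [Module ℂ V] [FiniteDimensional ℂ V]
    (f : Module.End ℂ V) (N : ℕ) (hN : 0 < N) (hf : f ^ N = 1) :
    starRingEnd ℂ (LinearMap.trace ℂ V f) = LinearMap.trace ℂ V (f ^ (N - 1)) := by
  have h := GLP_trace f N hN hf (starRingAut : ℂ ≃+* ℂ) (N - 1) (by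
    intro ζ hζ
    have h4 : ζ ^ (N - 1) * ζ = 1 := by
      rw [← pow_succ, Nat.sub_add_cancel hN, hζ]
    have h5 : ‖ζ‖ = 1 := by
      have h6 : ‖ζ‖ ^ N = 1 := by rw [← norm_pow, hζ, norm_one]
      exact (pow_eq_one_iff_of_nonneg (norm_nonneg _) hN.ne').1 h6
    have h7 : ζ⁻¹ = (starRingEnd ℂ) ζ := Complex.inv_eq_conj h5
    have h8 : ζ ^ (N - 1) = ζ⁻¹ := eq_inv_of_mul_eq_one_left h4
    rw [h8, h7]
    rfl)
  exact h

theorem CJIx_key {V : Type} [AddCommGroup V] [Module ℂ V] [FiniteDimensional ℂ V]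
    (E A A' : Module.End ℂ V) (N : ℕ) (hN : 0 < N) (hE : E * E = E) (hA : A ^ N = 1)
    (hA' : A ^ (N - 1) = A') (hc : A * E = E * A) :
    LinearMap.trace ℂ V (A' * E) = starRingEnd ℂ (LinearMap.trace ℂ V (A * E)) := by
  have hpow : ∀ k, (A * E + (1 - E)) ^ k = A ^ k * E + (1 - E) := by
    intro k
    induction k with
    | zero => simp
    | succ k ih =>
      rw [pow_succ, ih]
      have e1 : E * (1 - E) = 0 := by rw [mul_sub, mul_one, hE, sub_self]
      have e2 : (1 - E) * E = 0 := by rw [sub_mul, one_mul, hE, sub_self]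
      have e3 : (1 - E) * (1 - E) = 1 - E := by rw [mul_sub, e2, mul_one, sub_zero]
      have e4 : (A ^ k * E) * (A * E) = A ^ (k + 1) * E := by
        calc (A ^ k * E) * (A * E) = A ^ k * (E * A) * E := by simp only [mul_assoc]
          _ = A ^ k * (A * E) * E := by rw [hc]
          _ = A ^ (k + 1) * (E * E) := by rw [pow_succ]; simp only [mul_assoc]
          _ = A ^ (k + 1) * E := by rw [hE]
      have e5 : (A ^ k * E) * (1 - E) = 0 := by rw [mul_assoc, e1, mul_zero]
      have e6 : (1 - E) * (A * E) = 0 := by rw [hc, ← mul_assoc, e2, zero_mul]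
      rw [mul_add, add_mul, add_mul, e4, e5, e6, e3]
      simp
  have hB := CJIx_conj (A * E + (1 - E)) N hN (by rw [hpow, hA]; simp)
  rw [hpow, hA', map_add, map_add, map_add] at hB
  have hF := CJIx_conj (1 - (E + E)) 2 (by norm_num) (by
    rw [pow_two, mul_sub, sub_mul, sub_mul]
    simp only [mul_add, add_mul, one_mul, mul_one, hE]
    abel)
  have hn : starRingEnd ℂ (LinearMap.trace ℂ V (1 : Module.End ℂ V)) = LinearMap.trace ℂ V 1 := by
    have := CJIx_conj (1 : Module.End ℂ V) 1 (by norm_num) (by simp)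
    simpa using this
  have hE' : starRingEnd ℂ (LinearMap.trace ℂ V E) = LinearMap.trace ℂ V E := by
    norm_num at hF
    have h2 : starRingEnd ℂ (LinearMap.trace ℂ V E) + starRingEnd ℂ (LinearMap.trace ℂ V E) =
        LinearMap.trace ℂ V E + LinearMap.trace ℂ V E := hF
    have h3 : (2 : ℂ) * starRingEnd ℂ (LinearMap.trace ℂ V E) = 2 * LinearMap.trace ℂ V E := by
      rw [two_mul, two_mul, h2]
    exact mul_left_cancel₀ two_ne_zero h3
  have h1E : starRingEnd ℂ (LinearMap.trace ℂ V (1 - E)) = LinearMap.trace ℂ V (1 - E) := by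
    rw [map_sub, map_sub, hn, hE']
  rw [h1E] at hB
  exact (add_right_cancel hB).symm

theorem CJIx : CJI_stmt := by
  intro G _ _ H i hi hii g hg hgi χ hχ
  classical
  have : Fintype G := Fintype.ofFinite G
  have : Fintype H := Fintype.ofFinite H
  obtain ⟨h0, V, _, _, _, ρ, hρ, hch⟩ := hχ
  obtain ⟨E, hE⟩ : ∃ E : Module.End ℂ V, E = ∑ x : H, i x • ρ x := ⟨_, rfl⟩
  -- sums over `H`
  have hsum : ∀ f : G → ℂ, (∀ x, x ∉ H → f x = 0) → ∑ᶠ x, f x = ∑ x : H, f x := by
    intro f hf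
    rw [finsum_eq_sum_of_fintype]
    have e1 : ∑ x : H, f x = ∑ x ∈ (Finset.univ.filter fun x : G => x ∈ H), f x := by
      rw [Finset.sum_subtype (Finset.univ.filter fun x : G => x ∈ H) (p := fun x => x ∈ H)]
      intro x
      simp
    rw [e1, Finset.sum_filter]
    refine Finset.sum_congr rfl fun x _ => ?_
    split_ifs with h
    · rfl
    · exact hf x h
  have hev : ∀ g' : H, ev χ i g' = LinearMap.trace ℂ V (ρ g' * E) := by
    intro g'
    unfold ev
    rw [hsum _ (fun x hx => by rw [hi x hx, zero_mul]), hE, Finset.mul_sum, map_sum]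
    refine Finset.sum_congr rfl fun x _ => ?_
    have e1 : χ ((g' : G) * x) = ρ.character (g' * x) := (congrFun hch (g' * x)).symm
    rw [e1, mul_smul_comm, map_smul, ← map_mul, smul_eq_mul]
    rfl
  have hEE : E * E = E := by
    have e1 : E * E = ∑ t : H, (∑ x : H, i x * i ((x : G)⁻¹ * t)) • ρ t := by
      rw [hE, Finset.sum_mul]
      have e2 : ∀ x : H, (i x • ρ x) * ∑ y : H, i y • ρ y =
          ∑ t : H, (i x * i ((x : G)⁻¹ * t)) • ρ t := by
        intro x
        rw [Finset.mul_sum, ← Equiv.sum_comp (Equiv.mulLeft x) (fun t : H => (i x * i ((x : G)⁻¹ * t)) • ρ t)]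
        refine Finset.sum_congr rfl fun y _ => ?_
        have e4 : (x : G)⁻¹ * (((Equiv.mulLeft x) y : H) : G) = y := by
          change (x : G)⁻¹ * ((x : G) * y) = y
          group
        have e5 : ρ ((Equiv.mulLeft x) y) = ρ x * ρ y := by
          change ρ (x * y) = ρ x * ρ y
          rw [map_mul]
        rw [e4, e5, smul_mul_smul_comm]
      rw [Finset.sum_congr rfl fun x _ => e2 x, Finset.sum_comm]
      refine Finset.sum_congr rfl fun t _ => ?_
      rw [Finset.sum_smul]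
    rw [e1, hE]
    refine Finset.sum_congr rfl fun t _ => ?_
    congr 1
    have e3 := congrFun hii t
    unfold cv at e3
    rw [hsum _ (fun x hx => by rw [hi x hx, zero_mul])] at e3
    exact e3
  have hgE : ρ ⟨g, hg⟩ * E = E * ρ ⟨g, hg⟩ := by
    rw [hE, Finset.mul_sum, Finset.sum_mul]
    rw [← Equiv.sum_comp (MulAut.conj (⟨g, hg⟩ : H)).toEquiv (fun x : H => i x • ρ x * ρ ⟨g, hg⟩)]
    refine Finset.sum_congr rfl fun x _ => ?_
    have e1 : (MulAut.conj (⟨g, hg⟩ : H)).toEquiv x = ⟨g, hg⟩ * x * (⟨g, hg⟩ : H)⁻¹ := rfl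
    have e2 : (((⟨g, hg⟩ * x * (⟨g, hg⟩ : H)⁻¹ : H)) : G) = g * x * g⁻¹ := rfl
    rw [e1, e2, hgi, mul_smul_comm, smul_mul_assoc, ← map_mul, ← map_mul, inv_mul_cancel_right]
  have hN : 0 < Nat.card G := Nat.card_pos
  have hgN : (⟨g, hg⟩ : H) ^ Nat.card G = 1 := Subtype.ext pow_card_eq_one'
  have h1 := CJIx_key E (ρ ⟨g, hg⟩) (ρ (⟨g, hg⟩ : H)⁻¹) (Nat.card G) hN hEE
    (by rw [← map_pow, hgN, map_one])
    (by
      rw [← map_pow]
      congr 1
      have h3 : (⟨g, hg⟩ : H) ^ (Nat.card G - 1) * ⟨g, hg⟩ = 1 := by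
        rw [← pow_succ, Nat.sub_add_cancel hN, hgN]
      exact eq_inv_of_mul_eq_one_left h3)
    hgE
  have h2 := hev ⟨g, hg⟩
  have h3 := hev (⟨g, hg⟩ : H)⁻¹
  rw [← h2, ← h3] at h1
  exact h1

end Pool.Agent.FI
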