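import Pool.Agent.helper83.FI.SpecR

set_option autoImplicit false

namespace Pool.Agent.FI

open Pool.Agent.helper58.DC Pool.Agent.DI Pool.Agent.GR Pool.Agent.OB

theorem EVM_scal {G : Type} [Group G] [Fintype G] (hSCH : SCH_stmt) (hB2 : B2_stmt) (H : Subgroup G)
    (ψ : G → ℂ) (hψ : ψ ∈ IrrOn H) (z : G → ℂ) (hz : CF H z) (x' : G) (hx' : x' ∈ H) :
    ∑ x, z x * ψ (x' * x) = cc ψ z * ψ x' := by
  classical
  obtain ⟨-, hB⟩ := hB2 G H
  obtain ⟨⟨n, hn, hn1, -⟩, hcl, -, h0, -⟩ := hB ψ hψ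
  have h1 : ψ 1 ≠ 0 := by
    rw [hn1]
    exact_mod_cast hn.ne'
  have hcard : (Nat.card H : ℂ) ≠ 0 := by
    have : 0 < Nat.card H := Nat.card_pos
    exact_mod_cast this.ne'
  have e1 : ∀ f : G → ℂ, ∑ᶠ t ∈ (H : Set G), f t = ∑ t : H, f t := by
    intro f
    rw [← finsum_eq_sum_of_fintype]
    exact (finsum_set_coe_eq_finsum_mem (H : Set G)).symm
  have hS := hSCH G H ψ hψ x' hx'
  simp only [e1] at hS
  have e2 : ∑ y, z y * (ψ 1 * ∑ t : H, ψ (x' * ((t : G) * y * (t : G)⁻¹))) =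
      ψ 1 * ((Nat.card H : ℂ) * ∑ y, z y * ψ (x' * y)) := by
    have e3 : ∀ y, z y * (ψ 1 * ∑ t : H, ψ (x' * ((t : G) * y * (t : G)⁻¹))) =
        ψ 1 * ∑ t : H, z y * ψ (x' * ((t : G) * y * (t : G)⁻¹)) := by
      intro y
      rw [Finset.mul_sum, Finset.mul_sum, Finset.mul_sum]
      refine Finset.sum_congr rfl fun t _ => ?_
      ring
    rw [Finset.sum_congr rfl fun y _ => e3 y, ← Finset.mul_sum, Finset.sum_comm]
    congr 1
    have e4 : ∀ t : H, ∑ y, z y * ψ (x' * ((t : G) * y * (t : G)⁻¹)) = ∑ y, z y * ψ (x' * y) := by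
      intro t
      rw [← (MulAut.conj (t : G)).toEquiv.sum_comp (fun y => z y * ψ (x' * y))]
      refine Finset.sum_congr rfl fun y _ => ?_
      have e5 : (MulAut.conj (t : G)).toEquiv y = (t : G) * y * (t : G)⁻¹ := rfl
      rw [e5, hz.1 _ t.2]
    rw [Finset.sum_congr rfl fun t _ => e4 t, Finset.sum_const, Finset.card_univ, nsmul_eq_mul,
      ← Nat.card_eq_fintype_card]
  rw [Finset.sum_congr rfl fun y _ => by rw [hS y]] at e2
  have e6 : ∑ y, z y * ((Nat.card H : ℂ) * ψ x' * ψ y) = (Nat.card H : ℂ) * (ψ x' * ∑ y, z y * ψ y) := by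
    rw [Finset.mul_sum, Finset.mul_sum]
    refine Finset.sum_congr rfl fun y _ => ?_
    ring
  rw [e6] at e2
  have e7 : ψ x' * ∑ y, z y * ψ y = ψ 1 * ∑ y, z y * ψ (x' * y) := by
    have : (Nat.card H : ℂ) * (ψ x' * ∑ y, z y * ψ y) = (Nat.card H : ℂ) * (ψ 1 * ∑ y, z y * ψ (x' * y)) := by
      rw [e2]
      ring
    exact mul_left_cancel₀ hcard this
  unfold cc
  rw [finsum_eq_sum_of_fintype, div_mul_eq_mul_div, eq_div_iff h1, mul_comm _ (ψ x'), e7]
  ring

theorem EVM (hSCH : SCH_stmt) (hB2 : B2_stmt) (hCVF : CVF_stmt) : EVM_stmt := by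
  classical
  intro G _ _ H ψ hψ z hz g hg
  have : Fintype G := Fintype.ofFinite G
  obtain ⟨-, hB⟩ := hB2 G H
  obtain ⟨-, hcl, -, h0, -⟩ := hB ψ hψ
  have hm : ∀ i : G → ℂ, (∀ x, x ∉ H → i x = 0) → ev ψ (cv z i) g = cc ψ z * ev ψ i g := by
    intro i hi
    unfold ev cv
    simp only [finsum_eq_sum_of_fintype]
    have e1 : ∑ t, (∑ x, z x * i (x⁻¹ * t)) * ψ (g * t) = ∑ y, i y * ∑ x, z x * ψ (g * (x * y)) := by
      simp only [Finset.sum_mul, Finset.mul_sum]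
      rw [Finset.sum_comm]
      conv_rhs => rw [Finset.sum_comm]
      refine Finset.sum_congr rfl fun x _ => ?_
      rw [← Equiv.sum_comp (Equiv.mulLeft x)]
      refine Finset.sum_congr rfl fun y _ => ?_
      simp only [Equiv.coe_mulLeft, inv_mul_cancel_left]
      ring
    rw [e1, Finset.mul_sum]
    refine Finset.sum_congr rfl fun y _ => ?_
    by_cases hy : y ∈ H
    · have e2 : ∀ x, ψ (g * (x * y)) = ψ (y * g * x) := by
        intro x
        rw [← hcl (g * (x * y)) y hy]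
        congr 1
        group
      have e3 := EVM_scal hSCH hB2 H ψ hψ z hz (y * g) (H.mul_mem hy hg)
      rw [Finset.sum_congr rfl fun x _ => by rw [e2 x], e3]
      have e4 : ψ (y * g) = ψ (g * y) := by
        rw [← hcl (g * y) y hy]
        congr 1
        group
      rw [e4]
      ring
    · rw [hi y hy]
      ring
  refine ⟨fun i hi => ⟨hm i hi, ?_⟩, ?_⟩
  · have hc : cv z i = cv i z := (hCVF G).2.2.2.2.2.2.1 H z i hz hi
    rw [← hc]
    exact hm i hi
  · have h2 := EVM_scal hSCH hB2 H ψ hψ z hz g hg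
    rw [← h2]
    unfold ev
    rw [finsum_eq_sum_of_fintype]

end Pool.Agent.FI
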