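import Pool.Agent.helper83.FI.SpecR

set_option autoImplicit false

namespace Pool.Agent.FI

open Pool.Agent.helper58.DC Pool.Agent.DI Pool.Agent.GR Pool.Agent.OB

theorem RPY : RPY_stmt := by
  intro p hp G _ _ y v hy hv hc
  obtain ⟨n, hn⟩ := hy
  have hcop : Nat.Coprime (p ^ n) (orderOf v) := ((Nat.Prime.coprime_iff_not_dvd hp).2 hv).pow_left n
  have key : ∀ a b : ℕ, ∃ k : ℕ, y ^ k = y ^ a ∧ v ^ k = v ^ b := by
    intro a b
    obtain ⟨k, hk1, hk2⟩ := Nat.chineseRemainder hcop a b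
    refine ⟨k, ?_, ?_⟩
    · exact pow_eq_pow_iff_modEq.2 (hk1.of_dvd (orderOf_dvd_of_pow_eq_one hn))
    · exact pow_eq_pow_iff_modEq.2 hk2
  constructor
  · obtain ⟨k, h1, h2⟩ := key 1 0
    exact ⟨k, by rw [hc.mul_pow, h1, h2]; simp⟩
  · obtain ⟨k, h1, h2⟩ := key 0 1
    exact ⟨k, by rw [hc.mul_pow, h1, h2]; simp⟩

end Pool.Agent.FI
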